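import Pool.Agent.TH561.FP.PairM

/-!
# Vassiliev invariants of small order determine the homology class of the quotient of a freely
# periodic knot

`Pool.Agent.TH561.PK.Defs` contains the definitions:

* `Elem M`: an elementary tangle on `M` vertical strands: a crossing of one of the two kinds between
  the places `i` and `i + 1`, or a hook (the two lower points at the places `i`, `i + 1` are joined by a
  cap, the two upper points by a cup);
* `annular w dir`: the closure in the annulus of the tangle `w 0, w 1, …, w (L-1)` (one above the
  other); its marked points are the points `(t, j)` (level `t ∈ ℤ/L`, place `j`);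
* `Oriented w dir`: `dir` is an orientation of the curves of this diagram (`dir (t, j) = true`: upwards);
* `linking dir t`: number of the strands directed upwards minus number of the strands directed
  downwards at the level `t`, which is the linking number with the axis of the annulus;
* `IsKnot D`: all marked points are on one curve.

`pw n w` (in `Pool.Agent.TH561.PK.Knot`) is the word `w` repeated `n` times, and `freeWord n w a` (in
`Pool.Agent.TH561.FP.Defs`) is `pw n w` followed by `a` full twists on all `M` strands, that is by the
word `(σ_0 σ_1 ⋯ σ_{M-2})^M` repeated `|a|` times, with crossings of the kind given by the sign of `a`.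
So `annular (freeWord n w a) dir` is a knot which is invariant under a rotation of order `n` around the
axis of the annulus combined with a rotation along the axis; if `a` is prime to `n` this is a free
action of `ℤ/n` on the 3-sphere.

`Core q a λ` and `SameClass q a λ a' λ'` are defined in `Pool.Agent.TH561.FP.PairM`: `q` divides one of
`λ-1`, `λ+1`, `aλ-1`, `aλ+1`; and `(λ', a'λ')` is congruent to one of `(λ, aλ)`, `(-λ, -aλ)`, `(aλ, λ)`,
`(-aλ, -λ)` modulo `q`.

`Dia`, `Move`, `IsVassiliev`, `Separated d X Y` (an integer valued Vassiliev invariant of oriented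
links of order at most `d` takes different values on `X` and `Y`) are in
`Pool.Agent.H832R3.VJ.Defs`, `Diagram` and `Diagram.IsClosed` in `Pool.Agent.H891R2.Jones.Diagram`.
-/

set_option autoImplicit false

namespace Pool.Agent.Results.MP_31fd3b_gt.FreelyPeriodicPairs

open Pool.Agent.H891R2.Jones Pool.Agent.TH561.PK Pool.Agent.TH561.FP
open Pool.Agent.H832R3.VJ (Separated)

/-- Let `D`, `D'` be knot diagrams which are closures in the annulus of `w ^ n` followed by `a` full
twists and of `w' ^ n'` followed by `a'` full twists, with linking numbers `λ`, `λ'` with the axis.  Let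
`q = p^k > 1` be a power of a prime `p ≥ 5` which divides `n` and `n'`.  Then `D` and `D'` are separated
by a Vassiliev invariant of order at most `q - 2`, unless both have the class of a core modulo `q`
(`λ ≡ ± 1` or `aλ ≡ ± 1`; `λ' ≡ ± 1` or `a'λ' ≡ ± 1`) or the pairs `(λ, aλ)` and `(λ', a'λ')` are
congruent modulo `q` up to sign and order. -/
theorem result (M l n : ℕ) (hl : 0 < l) (hn : 0 < n) (w : Fin l → Elem M) (a : ℤ)
    (dir : Fin (n * l + a.natAbs * (M * (M - 1))) × Fin M → Bool)
    (ho : Oriented (freeWord n w a) dir) (hK : IsKnot (annular (freeWord n w a) dir))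
    (M' l' n' : ℕ) (hl' : 0 < l') (hn' : 0 < n') (w' : Fin l' → Elem M') (a' : ℤ)
    (dir' : Fin (n' * l' + a'.natAbs * (M' * (M' - 1))) × Fin M' → Bool)
    (ho' : Oriented (freeWord n' w' a') dir') (hK' : IsKnot (annular (freeWord n' w' a') dir')) :
    (annular (freeWord n w a) dir).IsClosed ∧
    (∀ t t', linking dir t = linking dir t') ∧
    ∀ p k : ℕ, p.Prime → 5 ≤ p → 1 ≤ k → p ^ k ∣ n → p ^ k ∣ n' → ∀ t t',
      (Core (p ^ k) a (linking dir t) ∧ Core (p ^ k) a' (linking dir' t')) ∨
      SameClass (p ^ k) a (linking dir t) a' (linking dir' t') ∨
      Separated (p ^ k - 2) ⟨_, inferInstance, annular (freeWord n w a) dir⟩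
        ⟨_, inferInstance, annular (freeWord n' w' a') dir'⟩ := by
  have hM : 0 < M := by
    have := (w ⟨0, hl⟩).2.2
    omega
  have hM' : 0 < M' := by
    have := (w' ⟨0, hl'⟩).2.2
    omega
  refine ⟨annular_closed _ dir ho, linking_const _ dir ho, ?_⟩
  intro p k hp hp5 hk hpn hpn' t t'
  by_cases hS : Separated (p ^ k - 2) ⟨_, inferInstance, annular (freeWord n w a) dir⟩
        ⟨_, inferInstance, annular (freeWord n' w' a') dir'⟩
  · right; right; exact hS
  · rcases pair_main p hp hp5 k n n' hk hpn hpn' hn hn' hM w hl a dir ho hK hM' w' hl' a' dir' ho' hK'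
      hS t t' with h | h
    · left; exact h
    · right; left; exact h

end Pool.Agent.Results.MP_31fd3b_gt.FreelyPeriodicPairs
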