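import Pool.Agent.TH561.AD.PairD
import Pool.Agent.TH561.AD.Comp

/-!
# Vassiliev invariants of two freely periodic knots and Jones polynomials of their quotients

`Pool.Agent.TH561.PK.Defs` contains the definitions:

* `Elem M`: an elementary tangle on `M` vertical strands: a crossing of one of the two kinds between
  the places `i` and `i + 1`, or a hook (the two lower points at the places `i`, `i + 1` are joined by a
  cap, the two upper points by a cup);
* `annular w dir`: the closure in the annulus of the tangle `w 0, w 1, …, w (L-1)` (one above the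
  other); its marked points are the points `(t, j)` (level `t ∈ ℤ/L`, place `j`);
* `Oriented w dir`: `dir` is an orientation of the curves of this diagram (`dir (t, j) = true`: upwards);
* `IsKnot D`: all marked points are on one curve.

`freeWord n w a` (in `Pool.Agent.TH561.FP.Defs`) is the word `w` repeated `n` times, followed by `a`
full twists on all `M` strands, that is by the word `(σ_0 σ_1 ⋯ σ_{M-2})^M` repeated `|a|` times, with
crossings of the kind given by the sign of `a`.  So `annular (freeWord n w a) dir` is a knot with a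
symmetry of order `n` (a free one if `a` is prime to `n`), and `annular (freeWord 1 w b) d` is the
quotient by a rotation (`b = 0`), or is obtained from it by `b` full twists along a disc which the
axis bounds (`-1/b`-surgery on the axis).

`red p f` is the Laurent polynomial `f` with coefficients modulo `p`.  `Dia`, `IsVassiliev`,
`Separated d X Y` (an integer valued Vassiliev invariant of oriented links of order at most `d` takes
different values on `X` and `Y`) are in `Pool.Agent.H832R3.VJ.Defs`, `Diagram`, `Diagram.IsClosed` and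
`Diagram.fPoly` (the normalised Kauffman bracket) in `Pool.Agent.H891R2.Jones.Diagram`.
-/

set_option autoImplicit false

namespace Pool.Agent.Results.MP_31fd3b_gt.PairDescent

open LaurentPolynomial Pool.Agent.H891R2.Jones Pool.Agent.TH561 Pool.Agent.TH561.PK
  Pool.Agent.TH561.FP Pool.Agent.TH561.AD
open Pool.Agent.H832R3.VJ (Separated)

/-- Let `D`, `D'` be knot diagrams which are the closures in the annulus of `w ^ q` followed by `a` full
twists on all `M` strands, and of `w' ^ q` followed by `a` full twists on all `M'` strands, where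
`q = p ^ k` is a power of a prime `p ≥ 5` and `q > 4 N (|a| N + 1)` for `N = max M M'`.  For an integer
`b` let `K_b`, `K'_b` be the closures of `w`, `w'` followed by `b` full twists.  These are knots, and

* for every `m ≥ 1`, if `D` and `D'` are not separated by a Vassiliev invariant of order less than
  `q m`, then `f_{K_b} ≡ f_{K'_b}` modulo `(p, (A - 1) ^ m)` for all `b`;
* if `f_D ≡ f_{D'}` modulo `p`, then `f_{K_b} ≡ f_{K'_b}` modulo `p` for all `b`;
* if `p > 2 ^ (M + 2 l) + 2 ^ (M' + 2 l')` and `f_D = f_{D'}`, then `f_{K_b} = f_{K'_b}` for all `b`. -/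
theorem result (M l : ℕ) (hl : 0 < l) (w : Fin l → Elem M) (M' l' : ℕ) (hl' : 0 < l')
    (w' : Fin l' → Elem M') (a : ℤ) (p k : ℕ) (hp : p.Prime) (hp5 : 5 ≤ p) (hk : 1 ≤ k)
    (hq : 4 * max M M' * (a.natAbs * max M M' + 1) < p ^ k)
    (dir : Fin (p ^ k * l + a.natAbs * (M * (M - 1))) × Fin M → Bool)
    (ho : Oriented (freeWord (p ^ k) w a) dir) (hK : IsKnot (annular (freeWord (p ^ k) w a) dir))
    (dir' : Fin (p ^ k * l' + a.natAbs * (M' * (M' - 1))) × Fin M' → Bool)
    (ho' : Oriented (freeWord (p ^ k) w' a) dir')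
    (hK' : IsKnot (annular (freeWord (p ^ k) w' a) dir')) :
    (annular (freeWord (p ^ k) w a) dir).IsClosed ∧
    ∀ (b : ℤ) (d : Fin (1 * l + b.natAbs * (M * (M - 1))) × Fin M → Bool)
      (d' : Fin (1 * l' + b.natAbs * (M' * (M' - 1))) × Fin M' → Bool),
      Oriented (freeWord 1 w b) d → Oriented (freeWord 1 w' b) d' →
      IsKnot (annular (freeWord 1 w b) d) ∧
      (∀ m : ℕ, 1 ≤ m →
        (T 1 - 1 : (ZMod p)[T;T⁻¹]) ^ m ∣ red p (annular (freeWord 1 w b) d).fPoly -
          red p (annular (freeWord 1 w' b) d').fPoly ∨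
        Separated (p ^ k * m - 1) ⟨_, inferInstance, annular (freeWord (p ^ k) w a) dir⟩
          ⟨_, inferInstance, annular (freeWord (p ^ k) w' a) dir'⟩) ∧
      (red p (annular (freeWord (p ^ k) w a) dir).fPoly =
          red p (annular (freeWord (p ^ k) w' a) dir').fPoly →
        red p (annular (freeWord 1 w b) d).fPoly = red p (annular (freeWord 1 w' b) d').fPoly) ∧
      (2 ^ (M + 2 * l) + 2 ^ (M' + 2 * l') < p →
        (annular (freeWord (p ^ k) w a) dir).fPoly = (annular (freeWord (p ^ k) w' a) dir').fPoly →
        (annular (freeWord 1 w b) d).fPoly = (annular (freeWord 1 w' b) d').fPoly) := by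
  have hM : 0 < M := by
    have := (w ⟨0, hl⟩).2.2
    omega
  have hM' : 0 < M' := by
    have := (w' ⟨0, hl'⟩).2.2
    omega
  have : Fact p.Prime := ⟨hp⟩
  have hpos : 0 < p ^ k := Nat.pow_pos hp.pos
  obtain ⟨N, hN⟩ : ∃ N, N = max M M' := ⟨_, rfl⟩
  rw [← hN] at hq
  have hN0 : 1 ≤ N := by
    rw [hN]
    exact le_trans hM (le_max_left _ _)
  have hq1 : 2 * N * (a.natAbs * N + 1) < p ^ k := by
    refine lt_of_le_of_lt ?_ hq
    apply Nat.mul_le_mul_right
    omega
  have hq2 : wid a N < p ^ k := by
    refine lt_of_le_of_lt ?_ hq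
    unfold wid
    have h1 : N * (N + 2) ≤ 4 * N * N := by nlinarith
    calc a.natAbs * (N * (N + 2)) + 4 * N ≤ a.natAbs * (4 * N * N) + 4 * N :=
          Nat.add_le_add_right (Nat.mul_le_mul_left _ h1) _
      _ = 4 * N * (a.natAbs * N + 1) := by ring
  refine ⟨annular_closed _ dir ho, fun b d d' hd hd' =>
    ⟨quot_isKnot hl (p ^ k) hpos w a dir hK ho b d hd, fun m hm => ?_, fun hf => ?_, fun hb hf => ?_⟩⟩
  · by_cases hS : Separated (p ^ k * m - 1) ⟨_, inferInstance, annular (freeWord (p ^ k) w a) dir⟩
          ⟨_, inferInstance, annular (freeWord (p ^ k) w' a) dir'⟩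
    · right; exact hS
    · left
      obtain ⟨r, rfl⟩ : ∃ r, m = r + 1 := ⟨m - 1, by omega⟩
      have h1 := red_T_sub_one p _ _ (dvd_of_not_separated _ _ _ hS)
      have h2 : p ^ k * (r + 1) - 1 + 1 = p ^ k * (r + 1) :=
        Nat.sub_add_cancel (Nat.mul_pos hpos (Nat.succ_pos r))
      rw [h2, map_sub] at h1
      exact pair_order p k hp5 hk hl hM w hl' hM' w' a dir ho hK dir' ho' hK' hpos N hN hq1 hq2 r h1
        b d d' hd hd'
  · exact pair_modp p k hp5 hk hl hM w hl' hM' w' a dir ho hK dir' ho' hK' hpos N hN hq1 hf b d d' hd hd'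
  · exact pair_exact p k hp5 hk hl hM w hl' hM' w' a dir ho hK dir' ho' hK' hpos N hN hq1 hb hf b d d'
      hd hd'

end Pool.Agent.Results.MP_31fd3b_gt.PairDescent
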