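import Pool.Agent.TH562.Tup

/-!
# Random twisted diagrams are pairwise separated by Vassiliev invariants of order at most two

Diagrams: `Pool.Agent.H891R2.Jones.Diagram` (`Crossing`, `Diagram`: oriented link diagrams with
marked points; `Diagram.IsClosed`) and `Pool.Agent.H891R2.MT.Defs` (`Ribbon k`: a ribbon graph with
`k` edges, given by the rotation system on its `2 k` darts; `Ribbon.verts`, `Ribbon.comps`;
`Ribbon.Planar`: a connected plane graph; `Ribbon.link n`: the unoriented link diagram which is the
boundary of the surface made of one disc for every vertex and, for every edge `e`, a band with `n e`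
half twists, that is, a row of `|n e|` crossings; `Orients D U`: `D` is the unoriented diagram `U`
with directions).

Vassiliev invariants: `Pool.Agent.H832R3.VJ.Defs` (`Dia`: an oriented diagram with the finite set of
its marked points; `Move`: relabelling, subdivision of strands and the Reidemeister moves; `sing`:
extension to diagrams with double points by the Vassiliev skein relation; `IsVassiliev n v`: `v` is
an invariant of oriented links of order at most `n`; `Separated d X Y`: some integer valued
Vassiliev invariant of order at most `d` has different values on `X` and `Y`).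

`Pool.Agent.H953R3.Q2.Fin2`: `Balanced M F A`: for every edge `e ∈ F` the set `A e` contains either
no even numbers or at least `M`, and either no odd numbers or at least `M`.
-/

set_option autoImplicit false

namespace Pool.Agent.Results.MP_31fd3b_gt.RandomTwistTuples

open Finset Pool.Agent.H891R2.Jones Pool.Agent.H891R2.MT Pool.Agent.H832R3.VJ
open Pool.Agent.H953R3.Q2

/-- For some choice of the directions, the twisted diagrams `D_Γ(n)` and `D_Γ'(n')` are not separated
by the Vassiliev invariants of order at most two. -/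
def Alike {k k' : ℕ} (Γ : Ribbon k) (n : Fin k → ℤ) (Γ' : Ribbon k') (n' : Fin k' → ℤ) : Prop :=
  ∃ (D : Diagram (Ribbon.Pt n)) (D' : Diagram (Ribbon.Pt n')), Orients D (Γ.link n) ∧
    D.IsClosed ∧ Orients D' (Γ'.link n') ∧ D'.IsClosed ∧
    ¬ Separated 2 ⟨_, inferInstance, D⟩ ⟨_, inferInstance, D'⟩

/-- Let `Γ_1, …, Γ_T` be connected plane graphs, with any numbers `k_i` of edges, none of which is a
tree (`verts ≤ k_i`), let `F_i` be a set of edges of `Γ_i` such that the other edges form a forest, and
let `A i e ⊂ ℤ` be finite sets such that, for `e ∈ F_i`, the even (odd) elements of `A i e` are none or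
at least `M`.  Choose the numbers of half twists `n i e ∈ A i e` of all the edges of all the graphs
independently and uniformly at random.  With probability at least `1 - 2 T² / M` any two of the `T`
links `D_(Γ_i)(n i)`, with any directions, are separated by a Vassiliev invariant of order at most
two.  The bound does not depend on the graphs, and for `A i e = [-N, N]` (second part, `M = N`) it
is `1 - 2 T² / N`. -/
theorem result (T : ℕ) (k : Fin T → ℕ) (Γ : ∀ i, Ribbon (k i)) (hΓ : ∀ i, (Γ i).Planar)
    (hk : ∀ i, (Γ i).verts ≤ k i) :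
    (∀ F : ∀ i, Finset (Fin (k i)), (∀ i, (F i)ᶜ.card + (Γ i).comps (F i)ᶜ = (Γ i).verts) →
      ∀ (M : ℕ) (A : ∀ i, Fin (k i) → Finset ℤ), (∀ i, Balanced M (F i) (A i)) →
        M * {n : ∀ i, Fin (k i) → ℤ | (∀ i e, n i e ∈ A i e) ∧
          ∃ i j, i ≠ j ∧ Alike (Γ i) (n i) (Γ j) (n j)}.ncard ≤
            2 * T ^ 2 * ∏ i, ∏ e, (A i e).card) ∧
    ∀ N : ℕ, N * {n : ∀ i, Fin (k i) → ℤ | (∀ i e, |n i e| ≤ N) ∧
      ∃ i j, i ≠ j ∧ Alike (Γ i) (n i) (Γ j) (n j)}.ncard ≤
        2 * T ^ 2 * ∏ i, (2 * N + 1) ^ k i := by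
  have h1 : ∀ F : ∀ i, Finset (Fin (k i)),
      (∀ i, (F i)ᶜ.card + (Γ i).comps (F i)ᶜ = (Γ i).verts) →
      ∀ (M : ℕ) (A : ∀ i, Fin (k i) → Finset ℤ), (∀ i, Balanced M (F i) (A i)) →
        M * {n : ∀ i, Fin (k i) → ℤ | (∀ i e, n i e ∈ A i e) ∧
          ∃ i j, i ≠ j ∧ Alike (Γ i) (n i) (Γ j) (n j)}.ncard ≤
            2 * T ^ 2 * ∏ i, ∏ e, (A i e).card :=
    fun F hF M A hA => Pool.Agent.TH562.Tup.count_tuples Γ hΓ hk F hF M A hA
  refine ⟨h1, fun N => ?_⟩
  have h := h1 (fun _ => Finset.univ) (fun i => empty_forest (Γ i)) N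
    (fun _ _ => Finset.Icc (-(N : ℤ)) N) (fun i => balanced_box N Finset.univ)
  have hc : ∏ i : Fin T, ∏ _e : Fin (k i), (Finset.Icc (-(N : ℤ)) N).card =
      ∏ i, (2 * N + 1) ^ k i := by
    refine Finset.prod_congr rfl fun i _ => ?_
    rw [Finset.prod_const, Finset.card_univ, Fintype.card_fin, Int.card_Icc]
    congr 1
    omega
  rw [hc] at h
  have hset : {n : ∀ i, Fin (k i) → ℤ | (∀ i e, |n i e| ≤ N) ∧
      ∃ i j, i ≠ j ∧ Alike (Γ i) (n i) (Γ j) (n j)} =
      {n : ∀ i, Fin (k i) → ℤ | (∀ i e, n i e ∈ Finset.Icc (-(N : ℤ)) N) ∧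
      ∃ i j, i ≠ j ∧ Alike (Γ i) (n i) (Γ j) (n j)} := by
    ext n
    simp only [Set.mem_ofPred_eq, Finset.mem_Icc, abs_le]
  rw [hset]
  exact h

end Pool.Agent.Results.MP_31fd3b_gt.RandomTwistTuples
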