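import Pool.Agent.TH561.AD.TwoE

/-!
# Vassiliev invariants of freely periodic knots with different numbers of full twists

`Pool.Agent.TH561.PK.Defs` contains the definitions:

* `Elem M`: an elementary tangle on `M` vertical strands: a crossing of one of the two kinds between
  the places `i` and `i + 1`, or a hook (the two lower points at the places `i`, `i + 1` are joined by a
  cap, the two upper points by a cup);
* `annular w dir`: the closure in the annulus of the tangle `w 0, w 1, …, w (L-1)` (one above the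
  other); its marked points are the points `(t, j)` (level `t ∈ ℤ/L`, place `j`);
* `Oriented w dir`: `dir` is an orientation of the curves of this diagram (`dir (t, j) = true`: upwards);
* `IsKnot D`: all marked points are on one curve.

`freeWord n w a` (in `Pool.Agent.TH561.FP.Defs`) is the word `w` repeated `n` times, followed by `a`
full twists on all `M` strands, that is by the word `(σ_0 σ_1 ⋯ σ_{M-2})^M` repeated `|a|` times, with
crossings of the kind given by the sign of `a`.  So `annular (freeWord n w a) dir` is a knot with a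
symmetry of order `n` (a free one if `a` is prime to `n`, the quotient being a knot in the lens space
`L(n, a)`; a rotation for `a = 0`), and `annular (freeWord 1 w b) d` is the closure of `w` followed by
`b` full twists.

`red p f` is the Laurent polynomial `f` with coefficients modulo `p`.  `Dia`, `IsVassiliev`,
`Separated d X Y` (an integer valued Vassiliev invariant of oriented links of order at most `d` takes
different values on `X` and `Y`) are in `Pool.Agent.H832R3.VJ.Defs`, `Diagram`, `Diagram.IsClosed` and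
`Diagram.fPoly` (the normalised Kauffman bracket) in `Pool.Agent.H891R2.Jones.Diagram`.
-/

set_option autoImplicit false

namespace Pool.Agent.Results.MP_31fd3b_gt.TwistNumber

open LaurentPolynomial Pool.Agent.H891R2.Jones Pool.Agent.TH561 Pool.Agent.TH561.PK
  Pool.Agent.TH561.FP Pool.Agent.TH561.AD
open Pool.Agent.H832R3.VJ (Separated)

/-- Let `D`, `D'` be knot diagrams which are the closures in the annulus of `w ^ q` followed by `a` full
twists on all `M` strands, and of `w' ^ q` followed by `a'` full twists on all `M'` strands, where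
`a ≠ a'` are different from `1` and `-1`, and `q = p ^ k` is a power of an odd prime `p` with
`q > 6 K N ^ 2 + 4 N + 4` for `K = max |a| |a'|`, `N = max M M'`.  For an integer `b` let `K_b`, `K'_b` be
the closures of `w`, `w'` followed by `b` full twists.

* For every `m ≥ 1`, if `D` and `D'` are not separated by a Vassiliev invariant of order less than
  `q m`, then all the `f_{K_b}` and all the `f_{K'_b}` are congruent modulo `(p, (A - 1) ^ m)`.
* If `f_D ≡ f_{D'}` modulo `p`, then all the `f_{K_b}` and all the `f_{K'_b}` are congruent modulo `p`.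
* If `p > 2 ^ (M + 2 l) + 2 ^ (M' + 2 l')` and `f_D = f_{D'}`, then all the `f_{K_b}` and all the
  `f_{K'_b}` are equal. -/
theorem result (M l : ℕ) (hl : 0 < l) (w : Fin l → Elem M) (M' l' : ℕ) (hl' : 0 < l')
    (w' : Fin l' → Elem M') (a a' : ℤ) (haa : a ≠ a') (ha1 : a ≠ 1) (ha2 : a ≠ -1) (ha1' : a' ≠ 1)
    (ha2' : a' ≠ -1) (p k : ℕ) (hp : p.Prime) (hp2 : p ≠ 2)
    (hq : 6 * max a.natAbs a'.natAbs * (max M M') ^ 2 + 4 * max M M' + 4 < p ^ k)
    (dir : Fin (p ^ k * l + a.natAbs * (M * (M - 1))) × Fin M → Bool)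
    (ho : Oriented (freeWord (p ^ k) w a) dir) (hK : IsKnot (annular (freeWord (p ^ k) w a) dir))
    (dir' : Fin (p ^ k * l' + a'.natAbs * (M' * (M' - 1))) × Fin M' → Bool)
    (ho' : Oriented (freeWord (p ^ k) w' a') dir')
    (hK' : IsKnot (annular (freeWord (p ^ k) w' a') dir')) :
    (annular (freeWord (p ^ k) w a) dir).IsClosed ∧
    (∀ m : ℕ, 1 ≤ m →
      (∃ g : (ZMod p)[T;T⁻¹],
        (∀ (b : ℤ) (d : Fin (1 * l + b.natAbs * (M * (M - 1))) × Fin M → Bool),
          Oriented (freeWord 1 w b) d →
            (T 1 - 1 : (ZMod p)[T;T⁻¹]) ^ m ∣ red p (annular (freeWord 1 w b) d).fPoly - g) ∧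
        (∀ (b : ℤ) (d : Fin (1 * l' + b.natAbs * (M' * (M' - 1))) × Fin M' → Bool),
          Oriented (freeWord 1 w' b) d →
            (T 1 - 1 : (ZMod p)[T;T⁻¹]) ^ m ∣ red p (annular (freeWord 1 w' b) d).fPoly - g)) ∨
      Separated (p ^ k * m - 1) ⟨_, inferInstance, annular (freeWord (p ^ k) w a) dir⟩
        ⟨_, inferInstance, annular (freeWord (p ^ k) w' a') dir'⟩) ∧
    (red p (annular (freeWord (p ^ k) w a) dir).fPoly =
        red p (annular (freeWord (p ^ k) w' a') dir').fPoly →
      ∃ g : (ZMod p)[T;T⁻¹],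
        (∀ (b : ℤ) (d : Fin (1 * l + b.natAbs * (M * (M - 1))) × Fin M → Bool),
          Oriented (freeWord 1 w b) d → red p (annular (freeWord 1 w b) d).fPoly = g) ∧
        (∀ (b : ℤ) (d : Fin (1 * l' + b.natAbs * (M' * (M' - 1))) × Fin M' → Bool),
          Oriented (freeWord 1 w' b) d → red p (annular (freeWord 1 w' b) d).fPoly = g)) ∧
    (2 ^ (M + 2 * l) + 2 ^ (M' + 2 * l') < p →
      (annular (freeWord (p ^ k) w a) dir).fPoly = (annular (freeWord (p ^ k) w' a') dir').fPoly →
      ∃ g : ℤ[T;T⁻¹],
        (∀ (b : ℤ) (d : Fin (1 * l + b.natAbs * (M * (M - 1))) × Fin M → Bool),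
          Oriented (freeWord 1 w b) d → (annular (freeWord 1 w b) d).fPoly = g) ∧
        (∀ (b : ℤ) (d : Fin (1 * l' + b.natAbs * (M' * (M' - 1))) × Fin M' → Bool),
          Oriented (freeWord 1 w' b) d → (annular (freeWord 1 w' b) d).fPoly = g)) := by
  have hM : 0 < M := by
    have := (w ⟨0, hl⟩).2.2
    omega
  have hM' : 0 < M' := by
    have := (w' ⟨0, hl'⟩).2.2
    omega
  have : Fact p.Prime := ⟨hp⟩
  have hpos : 0 < p ^ k := Nat.pow_pos hp.pos
  have hodd : Odd (p ^ k) := (hp.odd_of_ne_two hp2).pow
  have hq' : 2 * (3 * max a.natAbs a'.natAbs * (max M M') ^ 2 + 2 * max M M' + 2) < p ^ k := by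
    have e : 2 * (3 * max a.natAbs a'.natAbs * (max M M') ^ 2 + 2 * max M M' + 2) =
        6 * max a.natAbs a'.natAbs * (max M M') ^ 2 + 4 * max M M' + 4 := by ring
    rw [e]
    exact hq
  obtain ⟨d0, hd0⟩ := exists_quot_dir hl hM (p ^ k) hodd w a dir ho hK 0
  refine ⟨annular_closed _ dir ho, fun m hm => ?_, fun hf => ?_, fun hb hf => ?_⟩
  · by_cases hS : Separated (p ^ k * m - 1) ⟨_, inferInstance, annular (freeWord (p ^ k) w a) dir⟩
        ⟨_, inferInstance, annular (freeWord (p ^ k) w' a') dir'⟩
    · right; exact hS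
    · left
      have h1 := red_T_sub_one p _ _ (dvd_of_not_separated _ _ _ hS)
      rw [Nat.sub_add_cancel (Nat.mul_pos hpos hm), map_sub] at h1
      obtain ⟨g, h2, h3⟩ := two_order p k hp2 hl hM w hl' hM' w' a a' haa ha1 ha2 ha1' ha2' dir ho hK
        dir' ho' hK' hpos (max a.natAbs a'.natAbs) (max M M') (le_max_left _ _) (le_max_right _ _)
        (le_max_left _ _) (le_max_right _ _) hq' m hm h1
      refine ⟨red p (annular (freeWord 1 w 0) d0).fPoly, fun b d hd => ?_, fun b d hd => ?_⟩
      · exact cancel_dF p hp2 (h2 b d hd) (h2 0 d0 hd0)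
      · exact cancel_dF p hp2 (h3 b d hd) (h2 0 d0 hd0)
  · obtain ⟨g, h2, h3⟩ := two_modp p k hp2 hl hM w hl' hM' w' a a' haa ha1 ha2 ha1' ha2' dir ho hK
      dir' ho' hK' hpos (max a.natAbs a'.natAbs) (max M M') (le_max_left _ _) (le_max_right _ _)
      (le_max_left _ _) (le_max_right _ _) hq' hf
    refine ⟨red p (annular (freeWord 1 w 0) d0).fPoly, fun b d hd => ?_, fun b d hd => ?_⟩
    · exact mul_left_cancel₀ (dF_ne (ZMod p)) ((h2 b d hd).trans (h2 0 d0 hd0).symm)
    · exact mul_left_cancel₀ (dF_ne (ZMod p)) ((h3 b d hd).trans (h2 0 d0 hd0).symm)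
  · exact two_exact p k hp2 hl hM w hl' hM' w' a a' haa ha1 ha2 ha1' ha2' dir ho hK
      dir' ho' hK' hpos (max a.natAbs a'.natAbs) (max M M') (le_max_left _ _) (le_max_right _ _)
      (le_max_left _ _) (le_max_right _ _) hq' hb hf

end Pool.Agent.Results.MP_31fd3b_gt.TwistNumber
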